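import Pool.Agent.V1137.FIID
import Pool.Agent.V1137.BlockChain

namespace Pool.Agent.Results.MP_71d783_pr.MatchingNoOrientation

open Pool.Agent.V1137.FIID Pool.Agent.V1137.BlockChain

/-- There is a quasi-transitive `4`-regular graph with a factor-of-iid perfect matching but with
neither a factor-of-iid Schreier decoration nor a factor-of-iid balanced orientation. -/
theorem result :
    ∃ (V : Type) (_ : Countable V) (G : SimpleGraph V) (d : ℕ), 1 ≤ d ∧
      (∀ x, (G.neighborSet x).Finite ∧ (G.neighborSet x).ncard = 2 * d) ∧ QuasiTransitive G ∧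
      ExistsFIID G (IsPerfectMatching G) ∧ ¬ ExistsFIID G (IsSchreier G d) ∧
      ¬ ExistsFIID G (IsBalancedOrientation G d) :=
  ⟨V, inferInstance, G, 2, by norm_num,
    fun x => ⟨Set.finite_of_ncard_ne_zero (by rw [degree]; norm_num), degree x⟩, quasi,
    fiid_matching, fun h => not_fiid_balanced (fiid_schreier_balanced h), not_fiid_balanced⟩

end Pool.Agent.Results.MP_71d783_pr.MatchingNoOrientation
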